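import Pool.Agent.P.MP_9cf723_co.Main

set_option autoImplicit false

namespace Pool.Agent.Results.MP_9cf723_co.Coning

open Pool.Agent.P.MP_9cf723_co

theorem result {W : Type} [Fintype W] [LinearOrder W] (K : Finset (Finset W)) (w : W)
    (p : W → Fin 3 → ℝ) (s : ℕ) (ε ε' : Finset W → ℤˣ)
    (_hempty : ∅ ∈ K) (hdown : ∀ σ ∈ K, ∀ θ ⊆ σ, θ ∈ K) (hdim : ∀ σ ∈ K, σ.card ≤ 3)
    (hw : ∀ σ ∈ K, w ∉ σ)
    (hgen : ∀ S : Finset W, (∀ v ∈ S, {v} ∈ K) → affineSpan ℝ (p '' S) ≠ ⊤ →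
      p w ∉ affineSpan ℝ (p '' S)) :
    (∀ k ≤ 2, betti ε K (cof p s) k = betti ε' (cone w K) (cof p (s + 1)) k) ∧
      (betti ε K (cof p s) 3 = betti ε' (cone w K) (cof p (s + 1)) 3 ↔
        ∀ σ ∈ K, σ.card = 3 → AffineIndependent ℝ (fun v : σ => p v)) := by
  have hg : ∀ θ ∈ K, p w ∉ affineSpan ℝ (p '' θ) := fun θ hθ =>
    hgen θ (fun v hv => hdown θ hθ _ (Finset.singleton_subset_iff.2 hv))
      (span_ne_top p (hdim θ hθ))
  refine ⟨fun k hk => ?_, ?_⟩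
  · rw [betti_indep ε ε' hdown, betti_low ε' hw hdown hg s hk]
  · rw [betti_indep ε ε' hdown, betti_top ε' hw hdown hdim hg s, ← Bch_top_iff hw hg s]
    omega

end Pool.Agent.Results.MP_9cf723_co.Coning
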